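import Mathlib

/-!
A family of synchronizing automata with `3m+f` states and two letters whose triple rendezvous
time is at least `4m` (and at least `4m+1` if `f ≥ 1`).  States are the numbers below `3m+f`.
-/

set_option autoImplicit false

namespace Pool.Agent.Zk88.Rdv

/-- letter `b` (a permutation), on numbers: a cycle of length `2m`, a cycle of length `m`,
and `f` fixed points. -/
def fb (m p : ℕ) : ℕ :=
  if 3*m ≤ p then p else if p = 0 then 2*m-1 else if p = 2*m then 3*m-1 else p-1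

/-- letter `a` (merges `0` and `2m`), on numbers -/
def fa (m f p : ℕ) : ℕ :=
  if p = 0 then m-2 else if p = 2*m then m-2 else if p = m-1 then 3*m-1
  else if p = 3*m-1 then m-1 else if p = m then (if f = 0 then 2*m-1 else 3*m+f-1)
  else if p = 3*m then 2*m-1 else p-1

/-- `0` if `f = 0`, `1` otherwise -/
def ee (f : ℕ) : ℕ := if f = 0 then 0 else 1

def lev (m f x : ℕ) : ℕ :=
  if x < m-1 then 3*m+1+ee f+x else if x = m-1 then 0 else if x < 2*m then m+1+ee f+x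
  else if x < 3*m-1 then x+1+ee f else if x = 3*m-1 then 0 else 2*m+1

/-- the special pairs -/
def Sp (m x y : ℕ) : Prop := 2*m ≤ y ∧ y < 3*m ∧ (y = x+m ∨ y = x+2*m)

/-- a lower bound for the length of a word merging `x` and `y` -/
def rho (m f x y : ℕ) : ℕ :=
  if x = y then 0 else if 2*m ≤ y ∧ y < 3*m ∧ (y = x+m ∨ y = x+2*m) then x+1
  else if 2*m ≤ x ∧ x < 3*m ∧ (x = y+m ∨ x = y+2*m) then y+1 else max (lev m f x) (lev m f y)

theorem rho_comm (m f x y : ℕ) : rho m f x y = rho m f y x := by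
  unfold rho
  rw [max_comm]
  split_ifs <;> omega

theorem ee_cases (f : ℕ) : (f = 0 ∧ ee f = 0) ∨ (0 < f ∧ ee f = 1) := by
  unfold ee; split_ifs <;> omega

theorem fa_cases (m f p : ℕ) (hm : 2 ≤ m) (hp : p < 3*m+f) :
    (p = 0 ∧ fa m f p = m-2) ∨ (p = 2*m ∧ fa m f p = m-2) ∨ (p = m-1 ∧ fa m f p = 3*m-1) ∨
    (p = 3*m-1 ∧ fa m f p = m-1) ∨
    (p = m ∧ ((f = 0 ∧ fa m f p = 2*m-1) ∨ (0 < f ∧ fa m f p = 3*m+f-1))) ∨
    (0 < p ∧ p < m-1 ∧ fa m f p = p-1) ∨ (m < p ∧ p < 2*m ∧ fa m f p = p-1) ∨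
    (2*m < p ∧ p < 3*m-1 ∧ fa m f p = p-1) ∨ (p = 3*m ∧ fa m f p = 2*m-1) ∨
    (3*m < p ∧ fa m f p = p-1) := by
  unfold fa; split_ifs <;> omega

theorem fb_cases (m p : ℕ) (hm : 2 ≤ m) :
    (p = 0 ∧ fb m p = 2*m-1) ∨ (p = 2*m ∧ fb m p = 3*m-1) ∨ (p = m-1 ∧ fb m p = p-1) ∨
    (p = 3*m-1 ∧ fb m p = p-1) ∨ (p = m ∧ fb m p = m-1) ∨
    (0 < p ∧ p < m-1 ∧ fb m p = p-1) ∨ (m < p ∧ p < 2*m ∧ fb m p = p-1) ∨
    (2*m < p ∧ p < 3*m-1 ∧ fb m p = p-1) ∨ (3*m ≤ p ∧ fb m p = p) := by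
  unfold fb; split_ifs <;> omega

theorem lev_cases (m f x : ℕ) (hm : 2 ≤ m) :
    (x < m-1 ∧ lev m f x = 3*m+1+ee f+x) ∨ (x = m-1 ∧ lev m f x = 0) ∨
    (m ≤ x ∧ x < 2*m ∧ lev m f x = m+1+ee f+x) ∨
    (2*m ≤ x ∧ x < 3*m-1 ∧ lev m f x = x+1+ee f) ∨
    (x = 3*m-1 ∧ lev m f x = 0) ∨ (3*m ≤ x ∧ lev m f x = 2*m+1) := by
  unfold lev; split_ifs <;> omega

theorem rho_cases (m f x y : ℕ) :
    (x = y ∧ rho m f x y = 0) ∨
    (x ≠ y ∧ 2*m ≤ y ∧ y < 3*m ∧ (y = x+m ∨ y = x+2*m) ∧ rho m f x y = x+1) ∨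
    (x ≠ y ∧ 2*m ≤ x ∧ x < 3*m ∧ (x = y+m ∨ x = y+2*m) ∧ rho m f x y = y+1) ∨
    (x ≠ y ∧ ¬ (2*m ≤ y ∧ y < 3*m ∧ (y = x+m ∨ y = x+2*m)) ∧
      ¬ (2*m ≤ x ∧ x < 3*m ∧ (x = y+m ∨ x = y+2*m)) ∧
      rho m f x y = max (lev m f x) (lev m f y)) := by
  unfold rho
  by_cases h1 : x = y
  · left; simp [h1]
  · by_cases h2 : 2*m ≤ y ∧ y < 3*m ∧ (y = x+m ∨ y = x+2*m)
    · right; left; simp only [h1, if_false, if_pos h2]; exact ⟨h1, h2.1, h2.2.1, h2.2.2, trivial⟩
    · by_cases h3 : 2*m ≤ x ∧ x < 3*m ∧ (x = y+m ∨ x = y+2*m)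
      · right; right; left; simp only [h1, if_false, if_neg h2, if_pos h3]
        exact ⟨h1, h3.1, h3.2.1, h3.2.2, trivial⟩
      · right; right; right; simp only [h1, if_false, if_neg h2, if_neg h3]
        exact ⟨h1, h2, h3, trivial⟩

theorem lev_fa (m f x : ℕ) (hm : 2 ≤ m) (hx : x < 3*m+f) :
    lev m f x ≤ lev m f (fa m f x) + 1 := by
  have h1 := fa_cases m f x hm hx
  have h2 := lev_cases m f x hm
  have h3 := lev_cases m f (fa m f x) hm
  have h4 := ee_cases f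
  rcases h1 with h1 | h1 | h1 | h1 | h1 | h1 | h1 | h1 | h1 | h1 <;> omega

theorem rho_le (m f x y : ℕ) (hm : 2 ≤ m)
    (h1 : ¬ (x = m-1 ∧ y = 3*m-1)) (h2 : ¬ (y = m-1 ∧ x = 3*m-1)) :
    rho m f x y ≤ max (lev m f x) (lev m f y) := by
  rcases rho_cases m f x y with g | g | g | g
  · omega
  · rcases lev_cases m f x hm with l | l | l | l | l | l <;> omega
  · rcases lev_cases m f y hm with l | l | l | l | l | l <;> omega
  · omega

theorem rho_sp (m f x y : ℕ) (hm : 2 ≤ m) (h : Sp m x y) : rho m f x y = x+1 := by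
  unfold Sp at h
  rcases rho_cases m f x y with g | g | g | g <;> omega

theorem rho_gen (m f x y : ℕ) (hne : x ≠ y) (h1 : ¬ Sp m x y) (h2 : ¬ Sp m y x) :
    rho m f x y = max (lev m f x) (lev m f y) := by
  unfold Sp at h1 h2
  rcases rho_cases m f x y with g | g | g | g
  · omega
  · exact absurd ⟨g.2.1, g.2.2.1, g.2.2.2.1⟩ h1
  · exact absurd ⟨g.2.1, g.2.2.1, g.2.2.2.1⟩ h2
  · omega

/-- a bound on `rho x y` when the image is a special pair -/
theorem rho_fa_sp (m f x y : ℕ) (hm : 2 ≤ m) (hx : x < 3*m+f) (hy : y < 3*m+f)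
    (h : Sp m (fa m f x) (fa m f y)) : rho m f x y ≤ fa m f x + 2 := by
  have h1 := fa_cases m f x hm hx
  have h2 := fa_cases m f y hm hy
  have h4 := ee_cases f
  unfold Sp at h
  rcases h1 with h1 | h1 | h1 | h1 | h1 | h1 | h1 | h1 | h1 | h1 <;>
  rcases h2 with h2 | h2 | h2 | h2 | h2 | h2 | h2 | h2 | h2 | h2 <;>
  first
  | (exfalso; omega)
  | (have : Sp m x y := by unfold Sp; omega
     rw [rho_sp m f x y hm this]; omega)
  | (have : Sp m y x := by unfold Sp; omega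
     rw [rho_comm, rho_sp m f y x hm this]; omega)
  | (refine le_trans (rho_le m f x y hm (by omega) (by omega)) ?_
     have l1 := lev_cases m f x hm
     have l2 := lev_cases m f y hm
     omega)

theorem rho_fb_sp (m f x y : ℕ) (hm : 2 ≤ m) (hx : x < 3*m+f) (hy : y < 3*m+f)
    (h : Sp m (fb m x) (fb m y)) : rho m f x y ≤ fb m x + 2 := by
  have h1 := fb_cases m x hm
  have h2 := fb_cases m y hm
  have h4 := ee_cases f
  unfold Sp at h
  rcases h1 with h1 | h1 | h1 | h1 | h1 | h1 | h1 | h1 | h1 <;>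
  rcases h2 with h2 | h2 | h2 | h2 | h2 | h2 | h2 | h2 | h2 <;>
  first
  | (exfalso; omega)
  | (have : Sp m x y := by unfold Sp; omega
     rw [rho_sp m f x y hm this]; omega)
  | (have : Sp m y x := by unfold Sp; omega
     rw [rho_comm, rho_sp m f y x hm this]; omega)
  | (refine le_trans (rho_le m f x y hm (by omega) (by omega)) ?_
     have l1 := lev_cases m f x hm
     have l2 := lev_cases m f y hm
     omega)

theorem rho_fa (m f x y : ℕ) (hm : 2 ≤ m) (hx : x < 3*m+f) (hy : y < 3*m+f) :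
    rho m f x y ≤ rho m f (fa m f x) (fa m f y) + 1 := by
  by_cases hs : Sp m (fa m f x) (fa m f y)
  · rw [rho_sp m f _ _ hm hs]; exact rho_fa_sp m f x y hm hx hy hs
  by_cases hs' : Sp m (fa m f y) (fa m f x)
  · rw [rho_comm m f (fa m f x), rho_sp m f _ _ hm hs', rho_comm]
    exact rho_fa_sp m f y x hm hy hx hs'
  have h1 := fa_cases m f x hm hx
  have h2 := fa_cases m f y hm hy
  by_cases he : fa m f x = fa m f y
  · -- equal images
    have : x = y ∨ (x = 0 ∧ y = 2*m) ∨ (x = 2*m ∧ y = 0) := by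
      rcases h1 with h1 | h1 | h1 | h1 | h1 | h1 | h1 | h1 | h1 | h1 <;>
      rcases h2 with h2 | h2 | h2 | h2 | h2 | h2 | h2 | h2 | h2 | h2 <;> omega
    rcases this with h | h | h
    · subst h; unfold rho; simp
    · have : Sp m x y := by unfold Sp; omega
      rw [rho_sp m f x y hm this]; omega
    · have : Sp m y x := by unfold Sp; omega
      rw [rho_comm, rho_sp m f y x hm this]; omega
  · rw [rho_gen m f _ _ he hs hs']
    have h3 := lev_fa m f x hm hx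
    have h4 := lev_fa m f y hm hy
    unfold Sp at hs hs'
    have k1 : ¬ (x = m-1 ∧ y = 3*m-1) := by
      rintro ⟨k1, k2⟩
      rcases h1 with h1 | h1 | h1 | h1 | h1 | h1 | h1 | h1 | h1 | h1 <;>
      rcases h2 with h2 | h2 | h2 | h2 | h2 | h2 | h2 | h2 | h2 | h2 <;> omega
    have k2 : ¬ (y = m-1 ∧ x = 3*m-1) := by
      rintro ⟨k1, k2⟩
      rcases h1 with h1 | h1 | h1 | h1 | h1 | h1 | h1 | h1 | h1 | h1 <;>
      rcases h2 with h2 | h2 | h2 | h2 | h2 | h2 | h2 | h2 | h2 | h2 <;> omega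
    refine le_trans (rho_le m f x y hm k1 k2) ?_
    omega

theorem rho_fb (m f x y : ℕ) (hm : 2 ≤ m) (hx : x < 3*m+f) (hy : y < 3*m+f) :
    rho m f x y ≤ rho m f (fb m x) (fb m y) + 1 := by
  by_cases hs : Sp m (fb m x) (fb m y)
  · rw [rho_sp m f _ _ hm hs]; exact rho_fb_sp m f x y hm hx hy hs
  by_cases hs' : Sp m (fb m y) (fb m x)
  · rw [rho_comm m f (fb m x), rho_sp m f _ _ hm hs', rho_comm]
    exact rho_fb_sp m f y x hm hy hx hs'
  have h1 := fb_cases m x hm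
  have h2 := fb_cases m y hm
  have h5 := ee_cases f
  by_cases he : fb m x = fb m y
  · have : x = y := by
      rcases h1 with h1 | h1 | h1 | h1 | h1 | h1 | h1 | h1 | h1 <;>
      rcases h2 with h2 | h2 | h2 | h2 | h2 | h2 | h2 | h2 | h2 <;> omega
    subst this; unfold rho; simp
  · by_cases hsx : Sp m x y
    · rw [rho_sp m f x y hm hsx, rho_gen m f _ _ he hs hs']
      unfold Sp at hs hs' hsx
      have l1 := lev_cases m f (fb m x) hm
      have l2 := lev_cases m f (fb m y) hm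
      rcases h1 with h1 | h1 | h1 | h1 | h1 | h1 | h1 | h1 | h1 <;>
      rcases h2 with h2 | h2 | h2 | h2 | h2 | h2 | h2 | h2 | h2 <;> omega
    by_cases hsy : Sp m y x
    · rw [rho_comm, rho_sp m f y x hm hsy, rho_gen m f _ _ he hs hs']
      unfold Sp at hs hs' hsy
      have l1 := lev_cases m f (fb m x) hm
      have l2 := lev_cases m f (fb m y) hm
      rcases h1 with h1 | h1 | h1 | h1 | h1 | h1 | h1 | h1 | h1 <;>
      rcases h2 with h2 | h2 | h2 | h2 | h2 | h2 | h2 | h2 | h2 <;> omega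
    by_cases hxy : x = y
    · subst hxy; unfold rho; simp
    rw [rho_gen m f _ _ he hs hs', rho_gen m f _ _ hxy hsx hsy]
    unfold Sp at hs hs'
    have l1 := lev_cases m f (fb m x) hm
    have l2 := lev_cases m f (fb m y) hm
    have l3 := lev_cases m f x hm
    have l4 := lev_cases m f y hm
    rcases h1 with h1 | h1 | h1 | h1 | h1 | h1 | h1 | h1 | h1 <;>
    rcases h2 with h2 | h2 | h2 | h2 | h2 | h2 | h2 | h2 | h2 <;> omega

end Pool.Agent.Zk88.Rdv
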