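import Pool.Agent.Zk88.Rdv1

set_option autoImplicit false

namespace Pool.Agent.Zk88.Rdv

/-- one step, `false` is the letter `a`, `true` is the letter `b` -/
def st (m f : ℕ) (l : Bool) (p : ℕ) : ℕ := if l then fb m p else fa m f p

def run (m f : ℕ) (w : List Bool) (p : ℕ) : ℕ := w.foldl (fun x l => st m f l x) p

theorem run_cons (m f : ℕ) (l : Bool) (w : List Bool) (p : ℕ) :
    run m f (l :: w) p = run m f w (st m f l p) := rfl

theorem st_lt (m f : ℕ) (l : Bool) (p : ℕ) (hm : 2 ≤ m) (hp : p < 3*m+f) :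
    st m f l p < 3*m+f := by
  unfold st
  split_ifs
  · have := fb_cases m p hm; omega
  · have := fa_cases m f p hm hp; omega

def Mg (m f x y : ℕ) : Prop := ∃ w, run m f w x = run m f w y

theorem Mg.refl (m f x : ℕ) : Mg m f x x := ⟨[], rfl⟩
theorem Mg.symm {m f x y : ℕ} (h : Mg m f x y) : Mg m f y x := by
  obtain ⟨w, hw⟩ := h; exact ⟨w, hw.symm⟩
theorem Mg.a {m f x y : ℕ} (h : Mg m f (fa m f x) (fa m f y)) : Mg m f x y := by
  obtain ⟨w, hw⟩ := h; exact ⟨false :: w, hw⟩
theorem Mg.b {m f x y : ℕ} (h : Mg m f (fb m x) (fb m y)) : Mg m f x y := by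
  obtain ⟨w, hw⟩ := h; exact ⟨true :: w, hw⟩

theorem fa_it (m f k x : ℕ) {y : ℕ} (h : Mg m f ((fa m f)^[k] x) ((fa m f)^[k] y)) :
    Mg m f x y := by
  induction k generalizing x y with
  | zero => exact h
  | succ k ih =>
    rw [Function.iterate_succ_apply, Function.iterate_succ_apply] at h
    exact Mg.a (ih _ h)

theorem faA (m f i : ℕ) (h0 : 0 < i) (h1 : i < m-1) : fa m f i = i-1 := by
  unfold fa; split_ifs <;> omega
theorem faC (m f i : ℕ) (h0 : m < i) (h1 : i < 2*m) : fa m f i = i-1 := by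
  unfold fa; split_ifs <;> omega
theorem faB (m f i : ℕ) (h0 : 2*m < i) (h1 : i < 3*m-1) : fa m f i = i-1 := by
  unfold fa; split_ifs <;> omega
theorem faF (m f i : ℕ) (hm : 2 ≤ m) (h0 : 3*m < i) : fa m f i = i-1 := by
  unfold fa; split_ifs <;> omega
theorem faF0 (m f : ℕ) (hm : 2 ≤ m) : fa m f (3*m) = 2*m-1 := by
  unfold fa; split_ifs <;> omega
theorem fa0 (m f : ℕ) : fa m f 0 = m-2 := by unfold fa; simp
theorem fa2m (m f : ℕ) : fa m f (2*m) = m-2 := by unfold fa; split_ifs <;> omega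
theorem faD (m f : ℕ) (hm : 2 ≤ m) : fa m f (m-1) = 3*m-1 := by unfold fa; split_ifs <;> omega
theorem faE (m f : ℕ) (hm : 2 ≤ m) : fa m f (3*m-1) = m-1 := by unfold fa; split_ifs <;> omega
theorem fam (m : ℕ) (hm : 2 ≤ m) : fa m 0 m = 2*m-1 := by unfold fa; split_ifs <;> omega
theorem fam' (m f : ℕ) (hm : 2 ≤ m) (hf : 0 < f) : fa m f m = 3*m+f-1 := by
  unfold fa; split_ifs <;> omega
theorem fb0 (m : ℕ) (hm : 2 ≤ m) : fb m 0 = 2*m-1 := by unfold fb; split_ifs <;> omega
theorem fb2m (m : ℕ) (hm : 2 ≤ m) : fb m (2*m) = 3*m-1 := by unfold fb; split_ifs <;> omega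
theorem fbp (m i : ℕ) (h0 : 0 < i) (h1 : i ≠ 2*m) (h2 : i < 3*m) : fb m i = i-1 := by
  unfold fb; split_ifs <;> omega
theorem fbF (m i : ℕ) (h2 : 3*m ≤ i) : fb m i = i := by
  unfold fb; split_ifs <;> omega

theorem itA (m f : ℕ) (i k : ℕ) (hi : i < m-1) (hk : k ≤ i) : (fa m f)^[k] i = i-k := by
  induction k with
  | zero => simp
  | succ k ih =>
    rw [Function.iterate_succ_apply', ih (by omega), faA m f (i-k) (by omega) (by omega)]; omega

theorem itA' (m f : ℕ) (k : ℕ) (hm : 2 ≤ m) (hk : k ≤ m-2) :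
    (fa m f)^[k+1] 0 = m-2-k := by
  induction k with
  | zero => simp [fa0]
  | succ k ih =>
    rw [Function.iterate_succ_apply', ih (by omega), faA m f _ (by omega) (by omega)]; omega

theorem itC (m f : ℕ) (j k : ℕ) (hj : j < m) (hk : k ≤ j) : (fa m f)^[k] (m+j) = m+j-k := by
  induction k with
  | zero => simp
  | succ k ih =>
    rw [Function.iterate_succ_apply', ih (by omega), faC m f _ (by omega) (by omega)]; omega

theorem itC' (m : ℕ) (j k : ℕ) (hm : 2 ≤ m) (hj : j < m) (hk : k ≤ m-1) :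
    (fa m 0)^[j+1+k] (m+j) = 2*m-1-k := by
  induction k with
  | zero =>
    rw [Nat.add_zero, Function.iterate_succ_apply', itC m 0 j j hj le_rfl]
    have : m + j - j = m := by omega
    rw [this, fam m hm]; omega
  | succ k ih =>
    rw [← Nat.add_assoc, Function.iterate_succ_apply', ih (by omega),
      faC m 0 _ (by omega) (by omega)]; omega

theorem mgAB (m f i : ℕ) (hi : i < m-1) : Mg m f i (2*m+i) := by
  induction i with
  | zero => apply Mg.a; rw [Nat.add_zero, fa0, fa2m]; exact Mg.refl _ _ _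
  | succ i ih =>
    apply Mg.a
    rw [faA m f (i+1) (by omega) hi, faB m f (2*m+(i+1)) (by omega) (by omega)]
    exact ih (by omega)

theorem mgDE (m f : ℕ) (hm : 2 ≤ m) : Mg m f (m-1) (3*m-1) := by
  apply Mg.b
  rw [fbp m (m-1) (by omega) (by omega) (by omega), fbp m (3*m-1) (by omega) (by omega) (by omega)]
  have h := mgAB m f (m-2) (by omega)
  have e1 : m-1-1 = m-2 := by omega
  have e2 : 3*m-1-1 = 2*m+(m-2) := by omega
  rw [e1, e2]; exact h

theorem mgCB (m f i : ℕ) (hm : 2 ≤ m) (hi : i < m-1) : Mg m f (m+i) (2*m+i) := by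
  induction i with
  | zero =>
    apply Mg.b
    rw [Nat.add_zero, Nat.add_zero, fb2m m hm, fbp m m (by omega) (by omega) (by omega)]
    exact mgDE m f hm
  | succ i ih =>
    apply Mg.b
    rw [fbp m (m+(i+1)) (by omega) (by omega) (by omega),
      fbp m (2*m+(i+1)) (by omega) (by omega) (by omega)]
    exact ih (by omega)

theorem mgCE (m f : ℕ) (hm : 2 ≤ m) : Mg m f (2*m-1) (3*m-1) := by
  apply Mg.b
  rw [fbp m (2*m-1) (by omega) (by omega) (by omega),
    fbp m (3*m-1) (by omega) (by omega) (by omega)]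
  have h := mgCB m f (m-2) hm (by omega)
  have e1 : 2*m-1-1 = m+(m-2) := by omega
  have e2 : 3*m-1-1 = 2*m+(m-2) := by omega
  rw [e1, e2]; exact h

/-! ### pairs `(A, C)`, case `f = 0` -/

theorem mgAdj (m i : ℕ) (hm : 2 ≤ m) (hi : i < m) : Mg m 0 (m+i) (m-1+i) := by
  induction i with
  | zero =>
    apply Mg.a
    rw [Nat.add_zero, Nat.add_zero, fam m hm, faD m 0 hm]
    exact mgCE m 0 hm
  | succ i ih =>
    apply Mg.b
    rw [fbp m (m+(i+1)) (by omega) (by omega) (by omega),
      fbp m (m-1+(i+1)) (by omega) (by omega) (by omega)]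
    exact ih (by omega)

theorem mgA0Clast (m : ℕ) (hm : 2 ≤ m) : Mg m 0 0 (2*m-1) := by
  apply Mg.b
  rw [fb0 m hm, fbp m (2*m-1) (by omega) (by omega) (by omega)]
  have h := mgAdj m (m-1) hm (by omega)
  have e1 : 2*m-1 = m+(m-1) := by omega
  have e2 : 2*m-1-1 = m-1+(m-1) := by omega
  rw [e2, e1]; exact h

theorem mgA0C (m : ℕ) (hm : 2 ≤ m) (r : ℕ) (hr : r < m) : Mg m 0 0 (2*m-1-r) := by
  induction r with
  | zero => exact mgA0Clast m hm
  | succ r ih =>
    have e : 2*m-1-(r+1) = m+(m-2-r) := by omega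
    rw [e]
    refine fa_it m 0 (m-1) 0 ?_
    have h1 : (fa m 0)^[m-1] 0 = 0 := by
      have := itA' m 0 (m-2) hm le_rfl
      have e2 : m-2+1 = m-1 := by omega
      rw [e2] at this; rw [this]; omega
    have h2 : (fa m 0)^[m-1] (m+(m-2-r)) = 2*m-1-r := by
      have := itC' m (m-2-r) r hm (by omega) (by omega)
      have e2 : m-2-r+1+r = m-1 := by omega
      rw [e2] at this; exact this
    rw [h1, h2]; exact ih (by omega)

theorem faCmem (m k : ℕ) (hm : 2 ≤ m) (x : ℕ) (hx : m ≤ x ∧ x < 2*m) :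
    m ≤ (fa m 0)^[k] x ∧ (fa m 0)^[k] x < 2*m := by
  induction k with
  | zero => exact hx
  | succ k ih =>
    rw [Function.iterate_succ_apply']
    rcases Nat.lt_or_ge m ((fa m 0)^[k] x) with h | h
    · rw [faC m 0 _ h ih.2]; omega
    · have : (fa m 0)^[k] x = m := by omega
      rw [this, fam m hm]; omega

theorem mgAC0 (m i y : ℕ) (hm : 2 ≤ m) (hi : i < m-1) (hy : m ≤ y ∧ y < 2*m) :
    Mg m 0 i y := by
  refine fa_it m 0 i i ?_
  rw [itA m 0 i i hi le_rfl, Nat.sub_self]
  have h := faCmem m i hm y hy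
  have e : (fa m 0)^[i] y = 2*m-1-(2*m-1-(fa m 0)^[i] y) := by omega
  rw [e]; exact mgA0C m hm _ (by omega)

/-! ### the extra states, case `0 < f` -/

theorem mgF0hi (m f k : ℕ) (hm : 2 ≤ m) (hk : k ≤ m) : Mg m f (3*m) (m-1+k) := by
  induction k with
  | zero => apply Mg.a; rw [Nat.add_zero, faF0 m f hm, faD m f hm]; exact mgCE m f hm
  | succ k ih =>
    apply Mg.b
    rw [fbF m (3*m) le_rfl, fbp m (m-1+(k+1)) (by omega) (by omega) (by omega)]
    exact ih (by omega)

theorem mgFdown (m f i : ℕ) (hm : 2 ≤ m) (h0 : Mg m f (3*m+i) 0) (x : ℕ) (hx : x < 2*m) :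
    Mg m f (3*m+i) x := by
  induction x with
  | zero => exact h0
  | succ x ih =>
    apply Mg.b
    rw [fbF m (3*m+i) (by omega), fbp m (x+1) (by omega) (by omega) (by omega)]
    exact ih (by omega)

theorem mgFbig (m f i : ℕ) (hm : 2 ≤ m) : ∀ x, x < 2*m → Mg m f (3*m+i) x := by
  induction i with
  | zero =>
    intro x hx
    refine mgFdown m f 0 hm ?_ x hx
    apply Mg.b
    rw [Nat.add_zero, fbF m (3*m) le_rfl, fb0 m hm]
    have h := mgF0hi m f m hm le_rfl
    have e : 2*m-1 = m-1+m := by omega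
    rw [e]; exact h
  | succ i ih =>
    intro x hx
    refine mgFdown m f (i+1) hm ?_ x hx
    apply Mg.a
    rw [faF m f (3*m+(i+1)) hm (by omega), fa0]
    exact ih _ (by omega)

theorem mgFF (m f i j : ℕ) (hm : 2 ≤ m) (hij : i < j) : Mg m f (3*m+i) (3*m+j) := by
  induction i generalizing j with
  | zero =>
    apply Mg.a
    rw [Nat.add_zero, faF0 m f hm, faF m f (3*m+j) hm (by omega)]
    have e : 3*m+j-1 = 3*m+(j-1) := by omega
    rw [e]; exact (mgFbig m f (j-1) hm _ (by omega)).symm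
  | succ i ih =>
    apply Mg.a
    rw [faF m f (3*m+(i+1)) hm (by omega), faF m f (3*m+j) hm (by omega)]
    have e1 : 3*m+(i+1)-1 = 3*m+i := by omega
    have e : 3*m+j-1 = 3*m+(j-1) := by omega
    rw [e, e1]; exact ih (j-1) (by omega)

theorem itAmem (m f k : ℕ) (hm : 2 ≤ m) (x : ℕ) (hx : x < m-1) : (fa m f)^[k] x < m-1 := by
  induction k with
  | zero => exact hx
  | succ k ih =>
    rw [Function.iterate_succ_apply']
    rcases Nat.eq_zero_or_pos ((fa m f)^[k] x) with h | h
    · rw [h, fa0]; omega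
    · rw [faA m f _ h ih]; omega

theorem itF (m f i k : ℕ) (hm : 2 ≤ m) (hk : k ≤ i) : (fa m f)^[k] (3*m+i) = 3*m+i-k := by
  induction k with
  | zero => simp
  | succ k ih =>
    rw [Function.iterate_succ_apply', ih (by omega), faF m f _ hm (by omega)]; omega

theorem mgAC1 (m f i y : ℕ) (hm : 2 ≤ m) (hf : 0 < f) (hi : i < m-1)
    (hy : m ≤ y ∧ y < 2*m) : Mg m f i y := by
  refine fa_it m f (y-m+1) i ?_
  have h1 : (fa m f)^[y-m+1] y = 3*m+(f-1) := by
    rw [Function.iterate_succ_apply']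
    have h2 := itC m f (y-m) (y-m) (by omega) le_rfl
    have e : m+(y-m) = y := by omega
    rw [e] at h2
    rw [h2]
    have e2 : y-(y-m) = m := by omega
    rw [e2, fam' m f hm hf]; omega
  rw [h1]
  refine (mgFbig m f (f-1) hm _ ?_).symm
  have := itAmem m f (y-m+1) hm i hi
  omega

theorem mgAC (m f i y : ℕ) (hm : 2 ≤ m) (hi : i < m-1)
    (hy : m ≤ y ∧ y < 2*m) : Mg m f i y := by
  rcases Nat.eq_zero_or_pos f with h | h
  · subst h; exact mgAC0 m i y hm hi hy
  · exact mgAC1 m f i y hm h hi hy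

theorem mgBig (m f p q : ℕ) (hm : 2 ≤ m) (hpq : p < q) (hq : q < 2*m) : Mg m f p q := by
  induction p generalizing q with
  | zero =>
    rcases Nat.lt_or_ge q m with h | h
    · apply Mg.b
      rw [fb0 m hm, fbp m q hpq (by omega) (by omega)]
      exact (mgAC m f (q-1) (2*m-1) hm (by omega) (by omega)).symm
    · exact mgAC m f 0 q hm (by omega) ⟨h, hq⟩
  | succ p ih =>
    apply Mg.b
    rw [fbp m (p+1) (by omega) (by omega) (by omega), fbp m q (by omega) (by omega) (by omega)]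
    exact ih (q-1) (by omega) (by omega)

theorem mgBig' (m f p q : ℕ) (hm : 2 ≤ m) (hp : p < 2*m) (hq : q < 2*m) : Mg m f p q := by
  rcases Nat.lt_trichotomy p q with h | h | h
  · exact mgBig m f p q hm h hq
  · subst h; exact Mg.refl _ _ _
  · exact (mgBig m f q p hm h hp).symm

theorem fa_big (m f y : ℕ) (hm : 2 ≤ m) (hy : y < 2*m) :
    fa m f y < 2*m ∨ (fa m f y = 3*m-1 ∧ y = m-1) ∨ (0 < f ∧ fa m f y = 3*m+(f-1)) := by
  have := fa_cases m f y hm (by omega)
  omega

theorem mgE (m f y : ℕ) (hm : 2 ≤ m) (hy : y < 2*m) : Mg m f (3*m-1) y := by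
  rcases fa_big m f y hm hy with h | ⟨h, h'⟩ | ⟨_, h⟩
  · apply Mg.a; rw [faE m f hm]; exact mgBig' m f _ _ hm (by omega) h
  · subst h'; exact (mgDE m f hm).symm
  · apply Mg.a; rw [faE m f hm, h]; exact (mgFbig m f _ hm _ (by omega)).symm

theorem mgEF (m f i : ℕ) (hm : 2 ≤ m) : Mg m f (3*m-1) (3*m+i) := by
  apply Mg.a
  rw [faE m f hm]
  rcases Nat.eq_zero_or_pos i with h | h
  · subst h; rw [Nat.add_zero, faF0 m f hm]; exact mgBig' m f _ _ hm (by omega) (by omega)
  · rw [faF m f (3*m+i) hm (by omega)]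
    have e : 3*m+i-1 = 3*m+(i-1) := by omega
    rw [e]; exact (mgFbig m f _ hm _ (by omega)).symm

theorem fa_Y (m f y : ℕ) (hm : 2 ≤ m) (hy : y < 2*m ∨ y = 3*m-1 ∨ 3*m ≤ y) :
    fa m f y < 2*m ∨ fa m f y = 3*m-1 ∨ 3*m ≤ fa m f y := by
  rcases hy with hy | hy | hy
  · rcases fa_big m f y hm hy with h | ⟨h, _⟩ | ⟨_, h⟩ <;> omega
  · subst hy; rw [faE m f hm]; omega
  · rcases Nat.eq_or_lt_of_le hy with h | h
    · rw [← h, faF0 m f hm]; omega
    · rw [faF m f y hm h]; omega

theorem mgYA (m f y x : ℕ) (hm : 2 ≤ m) (hx : x < 2*m) (hy : y < 2*m ∨ y = 3*m-1 ∨ 3*m ≤ y) :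
    Mg m f y x := by
  rcases hy with hy | hy | hy
  · exact mgBig' m f _ _ hm hy hx
  · subst hy; exact mgE m f _ hm hx
  · have e : y = 3*m+(y-3*m) := by omega
    rw [e]; exact mgFbig m f _ hm _ hx

theorem mgYB (m f k : ℕ) (hm : 2 ≤ m) (hk : k < m-1) :
    ∀ y, (y < 2*m ∨ y = 3*m-1 ∨ 3*m ≤ y) → Mg m f y (2*m+k) := by
  induction k with
  | zero =>
    intro y hy
    apply Mg.a
    rw [Nat.add_zero, fa2m]
    exact mgYA m f _ _ hm (by omega) (fa_Y m f y hm hy)
  | succ k ih =>
    intro y hy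
    apply Mg.a
    rw [faB m f (2*m+(k+1)) (by omega) (by omega)]
    have e : 2*m+(k+1)-1 = 2*m+k := by omega
    rw [e]
    exact ih (by omega) _ (fa_Y m f y hm hy)

theorem mgBB (m f j k : ℕ) (hm : 2 ≤ m) (hjk : j < k) (hk : k < m-1) :
    Mg m f (2*m+j) (2*m+k) := by
  induction j generalizing k with
  | zero =>
    apply Mg.a
    rw [Nat.add_zero, fa2m, faB m f (2*m+k) (by omega) (by omega)]
    have e : 2*m+k-1 = 2*m+(k-1) := by omega
    rw [e]
    exact mgYB m f (k-1) hm (by omega) _ (Or.inl (by omega))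
  | succ j ih =>
    apply Mg.a
    rw [faB m f (2*m+(j+1)) (by omega) (by omega), faB m f (2*m+k) (by omega) (by omega)]
    have e1 : 2*m+(j+1)-1 = 2*m+j := by omega
    have e2 : 2*m+k-1 = 2*m+(k-1) := by omega
    rw [e1, e2]
    exact ih (k-1) (by omega) (by omega)

theorem mg_all (m f x y : ℕ) (hm : 2 ≤ m) : Mg m f x y := by
  wlog h : x ≤ y generalizing x y
  · exact (this y x (by omega)).symm
  by_cases hxy : x = y
  · rw [hxy]; exact Mg.refl _ _ _
  by_cases hx2 : x < 2*m
  · by_cases hyB : 2*m ≤ y ∧ y < 3*m-1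
    · have e : y = 2*m+(y-2*m) := by omega
      rw [e]; exact mgYB m f (y-2*m) hm (by omega) _ (Or.inl hx2)
    · exact (mgYA m f y x hm hx2 (by omega)).symm
  by_cases hxB : x < 3*m-1
  · have e : x = 2*m+(x-2*m) := by omega
    by_cases hyB : y < 3*m-1
    · have e' : y = 2*m+(y-2*m) := by omega
      rw [e, e']; exact mgBB m f _ _ hm (by omega) (by omega)
    · rw [e]; exact (mgYB m f (x-2*m) hm (by omega) y (by omega)).symm
  by_cases hxE : x = 3*m-1
  · have e : y = 3*m+(y-3*m) := by omega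
    rw [hxE, e]; exact mgEF m f _ hm
  · have e : y = 3*m+(y-3*m) := by omega
    have e' : x = 3*m+(x-3*m) := by omega
    rw [e, e']; exact mgFF m f _ _ hm (by omega)

/-- every word merging `x,y` has length at least `rho m f x y` -/
theorem rho_le_length (m f : ℕ) (hm : 2 ≤ m) (w : List Bool) :
    ∀ x y, x < 3*m+f → y < 3*m+f → run m f w x = run m f w y → rho m f x y ≤ w.length := by
  induction w with
  | nil => intro x y hx hy h; change x = y at h; subst h; unfold rho; simp
  | cons l w ih =>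
    intro x y hx hy h
    rw [run_cons, run_cons] at h
    have h1 := ih _ _ (st_lt m f l x hm hx) (st_lt m f l y hm hy) h
    rw [List.length_cons]
    cases l with
    | false => exact le_trans (rho_fa m f x y hm hx hy) (Nat.add_le_add_right h1 1)
    | true => exact le_trans (rho_fb m f x y hm hx hy) (Nat.add_le_add_right h1 1)

theorem rho_last (m f y : ℕ) (hm : 2 ≤ m) (h1 : y ≠ m-2) (h2 : y ≠ 3*m-2) :
    4*m-1+ee f ≤ rho m f (m-2) y := by
  have l1 := lev_cases m f (m-2) hm
  rcases rho_cases m f (m-2) y with g | g | g | g <;> omega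

theorem fa_inj (m f x y : ℕ) (hm : 2 ≤ m) (hx : x < 3*m+f) (hy : y < 3*m+f)
    (h : fa m f x = fa m f y) :
    x = y ∨ (x = 0 ∧ y = 2*m) ∨ (x = 2*m ∧ y = 0) := by
  have h1 := fa_cases m f x hm hx
  have h2 := fa_cases m f y hm hy
  rcases h1 with h1 | h1 | h1 | h1 | h1 | h1 | h1 | h1 | h1 | h1 <;>
  rcases h2 with h2 | h2 | h2 | h2 | h2 | h2 | h2 | h2 | h2 | h2 <;> omega

theorem fb_inj (m x y : ℕ) (hm : 2 ≤ m) (h : fb m x = fb m y) : x = y := by
  have h1 := fb_cases m x hm
  have h2 := fb_cases m y hm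
  rcases h1 with h1 | h1 | h1 | h1 | h1 | h1 | h1 | h1 | h1 <;>
  rcases h2 with h2 | h2 | h2 | h2 | h2 | h2 | h2 | h2 | h2 <;> omega

theorem fa_ne (m f x : ℕ) (hm : 2 ≤ m) (hx : x < 3*m+f) : fa m f x ≠ 3*m-2 := by
  have h1 := fa_cases m f x hm hx
  rcases h1 with h1 | h1 | h1 | h1 | h1 | h1 | h1 | h1 | h1 | h1 <;> omega

/-- no word shorter than `4m + ee f` merges three states -/
theorem no_triple (m f : ℕ) (hm : 2 ≤ m) (w : List Bool) :
    ∀ x y z, x < 3*m+f → y < 3*m+f → z < 3*m+f → x ≠ y → x ≠ z → y ≠ z →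
      w.length < 4*m+ee f →
      ¬ (run m f w x = run m f w y ∧ run m f w x = run m f w z) := by
  induction w with
  | nil => intro x y z _ _ _ hxy _ _ _ h; exact hxy h.1
  | cons l w ih =>
    intro x y z hx hy hz hxy hxz hyz hl h
    rw [List.length_cons] at hl
    simp only [run_cons] at h
    -- key: two of them already merged
    have key : ∀ x y z, x < 3*m+f → y < 3*m+f → z < 3*m+f → x ≠ y → x ≠ z → y ≠ z →
        st m f l x = st m f l y → run m f w (st m f l x) = run m f w (st m f l z) → False := by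
      intro x y z hx hy hz hxy hxz hyz he hr
      cases l with
      | true => exact hxy (fb_inj m x y hm he)
      | false =>
        change fa m f x = fa m f y at he
        change run m f w (fa m f x) = run m f w (fa m f z) at hr
        have hfx : fa m f x = m-2 ∧ fa m f z ≠ m-2 := by
          rcases fa_inj m f x y hm hx hy he with h | ⟨h1, h2⟩ | ⟨h1, h2⟩
          · exact absurd h hxy
          · refine ⟨by rw [h1]; exact fa0 m f, fun hh => ?_⟩
            have h3 : fa m f x = fa m f z := by rw [hh, h1]; exact fa0 m f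
            rcases fa_inj m f x z hm hx hz h3 with h | ⟨_, h4⟩ | ⟨h4, h5⟩ <;> omega
          · refine ⟨by rw [h1]; exact fa2m m f, fun hh => ?_⟩
            have h3 : fa m f x = fa m f z := by rw [hh, h1]; exact fa2m m f
            rcases fa_inj m f x z hm hx hz h3 with h | ⟨_, h4⟩ | ⟨h4, h5⟩ <;> omega
        have hz3 : fa m f z < 3*m+f := st_lt m f false z hm hz
        have := rho_le_length m f hm w (fa m f x) (fa m f z) (st_lt m f false x hm hx) hz3 hr
        rw [hfx.1] at this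
        have h5 := rho_last m f (fa m f z) hm hfx.2 (fa_ne m f z hm hz)
        omega
    by_cases h1 : st m f l x = st m f l y
    · exact key x y z hx hy hz hxy hxz hyz h1 h.2
    by_cases h2 : st m f l x = st m f l z
    · exact key x z y hx hz hy hxz hxy (Ne.symm hyz) h2 h.1
    by_cases h3 : st m f l y = st m f l z
    · exact key y z x hy hz hx hyz (Ne.symm hxy) (Ne.symm hxz) h3 h.1.symm
    exact ih _ _ _ (st_lt m f l x hm hx) (st_lt m f l y hm hy) (st_lt m f l z hm hz) h1 h2 h3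
      (by omega) h

/-- pairwise mergeable implies resettable -/
theorem exists_reset {ι V : Type*} [DecidableEq V] (δ : ι → V → V)
    (h : ∀ x y : V, ∃ w : List ι, w.foldl (fun x l => δ l x) x = w.foldl (fun x l => δ l x) y) :
    ∀ (n : ℕ) (S : Finset V), S.card ≤ n → S.Nonempty →
      ∃ (w : List ι) (q : V), ∀ p ∈ S, w.foldl (fun x l => δ l x) p = q := by
  intro n
  induction n with
  | zero => intro S hS hne; rw [Nat.le_zero, Finset.card_eq_zero] at hS; exact absurd hS hne.ne_empty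
  | succ n ih =>
    intro S hS hne
    by_cases h1 : S.card ≤ 1
    · obtain ⟨q, hq⟩ := hne
      refine ⟨[], q, fun p hp => ?_⟩
      exact Finset.card_le_one.mp h1 p hp q hq
    · have h2 : 1 < S.card := by omega
      obtain ⟨x, hx, y, hy, hxy⟩ := Finset.one_lt_card.mp h2
      obtain ⟨w, hw⟩ := h x y
      set f : V → V := fun p => w.foldl (fun x l => δ l x) p with hf
      have hcard : (S.image f).card < S.card := by
        refine lt_of_le_of_ne Finset.card_image_le ?_
        intro he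
        have hinj := Finset.card_image_iff.mp he
        exact hxy (hinj hx hy hw)
      obtain ⟨w', q, hq⟩ := ih (S.image f) (by omega) (hne.image f)
      refine ⟨w ++ w', q, fun p hp => ?_⟩
      rw [List.foldl_append]
      exact hq _ (Finset.mem_image_of_mem f hp)

end Pool.Agent.Zk88.Rdv
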